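import Pool.Agent.H31.Kn.K22Final

namespace Pool.Agent.Results.MP_3036ab_co.OrderNearHalf

open Pool.Agent.H31.Kn

/-- `i(n,k)`: the smallest size of an inclusion-maximal intersecting family of `k`-subsets of an
`n`-element set. -/
noncomputable def minMaximal (n k : ℕ) : ℕ :=
  sInf {m : ℕ | ∃ F : Finset (Finset (Fin n)), Maximal (IsInt n k) F ∧ F.card = m}

/-- For every fixed `c`, the smallest maximal intersecting families of `k`-subsets of a
`(2k+c)`-element set have size of exact order `C(2k+c,k) / k^c`. -/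
theorem result : ∀ c : ℕ, ∃ a b : ℝ, 0 < a ∧ 0 < b ∧ ∀ k : ℕ, 1 ≤ k →
    a * (((2 * k + c).choose k : ℝ) / (k : ℝ) ^ c) ≤ (minMaximal (2 * k + c) k : ℝ) ∧
    (minMaximal (2 * k + c) k : ℝ) ≤ b * (((2 * k + c).choose k : ℝ) / (k : ℝ) ^ c) := by
  intro c
  obtain ⟨b, hb, hbk⟩ := final_upper c
  refine ⟨1 / (2 * (1 + c) ^ c), b, by positivity, hb, ?_⟩
  intro k hk
  have hk0 : (0 : ℝ) < k := by exact_mod_cast hk
  have hkc : (0 : ℝ) < (k : ℝ) ^ c := by positivity
  obtain ⟨F, hF, hFc⟩ := hbk k hk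
  have hne : {m : ℕ | ∃ F : Finset (Finset (Fin (2 * k + c))),
      Maximal (IsInt (2 * k + c) k) F ∧ F.card = m}.Nonempty := ⟨F.card, F, hF, rfl⟩
  constructor
  · obtain ⟨F', hF', hc'⟩ := Nat.sInf_mem hne
    have h1 := counting_bound (2 * k + c) k hk F' hF'
    have h2 := one_add_choose_le c k hk
    have h3 : (2 * k + c).choose k ≤ minMaximal (2 * k + c) k * (2 * (1 + c) ^ c * k ^ c) := by
      refine le_trans h1 ?_
      rw [hc']
      exact Nat.mul_le_mul_left _ h2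
    have h4 : (((2 * k + c).choose k : ℕ) : ℝ) ≤
        (minMaximal (2 * k + c) k : ℝ) * (2 * (1 + (c : ℝ)) ^ c * (k : ℝ) ^ c) := by
      exact_mod_cast h3
    have h5 : (0 : ℝ) < 2 * (1 + (c : ℝ)) ^ c := by positivity
    rw [div_mul_div_comm, one_mul, div_le_iff₀ (by positivity)]
    exact h4
  · have h1 : minMaximal (2 * k + c) k ≤ F.card := Nat.sInf_le ⟨F, hF, rfl⟩
    have h2 : (minMaximal (2 * k + c) k : ℝ) ≤ (F.card : ℝ) := by exact_mod_cast h1
    refine le_trans h2 ?_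
    rw [← mul_div_assoc, le_div_iff₀ hkc]
    exact hFc

end Pool.Agent.Results.MP_3036ab_co.OrderNearHalf
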