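import Pool.Agent.H70.KQ.TH
import Pool.Agent.H70.KG.LI

namespace Pool.Agent.Results.MP_3036ab_co.PolynomialFactor

open Pool.Agent.H31.Kn Filter Topology

/-- `i(n,k)`: the smallest size of an inclusion-maximal intersecting family of `k`-subsets of an
`n`-element set. -/
noncomputable def minMaximal (n k : ℕ) : ℕ :=
  sInf {m : ℕ | ∃ F : Finset (Finset (Fin n)), Maximal (IsInt n k) F ∧ F.card = m}

theorem attained (n k : ℕ) :
    ∃ F : Finset (Finset (Fin n)), Maximal (IsInt n k) F ∧ F.card = minMaximal n k := by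
  obtain ⟨F, hF⟩ := exists_maximal n k
  have hne : {m : ℕ | ∃ F : Finset (Finset (Fin n)),
      Maximal (IsInt n k) F ∧ F.card = m}.Nonempty := ⟨F.card, F, hF, rfl⟩
  exact Nat.sInf_mem hne

theorem lower (n k : ℕ) (hk : 1 ≤ k) :
    (n.choose k : ℝ) / (1 + ((n - k).choose k : ℝ)) ≤ (minMaximal n k : ℝ) := by
  obtain ⟨F', hF', hc'⟩ := attained n k
  have h1 := counting_bound n k hk F' hF'
  rw [hc'] at h1
  rw [div_le_iff₀ (by positivity)]
  have h2 : ((n.choose k : ℕ) : ℝ) ≤
      ((minMaximal n k * (1 + (n - k).choose k) : ℕ) : ℝ) := by exact_mod_cast h1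
  push_cast at h2
  exact h2

/-- There is a constant `C` such that for all `k ≥ 1` and `n ≥ 2 k` the trivial counting bound for
`i(n,k)` is sharp up to the factor `2 k^C`. -/
theorem result : ∃ C : ℕ, ∀ n k : ℕ, 1 ≤ k → 2 * k ≤ n →
    (n.choose k : ℝ) / (1 + ((n - k).choose k : ℝ)) ≤ (minMaximal n k : ℝ) ∧
    (minMaximal n k : ℝ) ≤ (k : ℝ) ^ C * ((n.choose k : ℝ) / ((n - k).choose k : ℝ)) := by
  obtain ⟨C, h⟩ := Pool.Agent.H70.KQ.all_k
  refine ⟨C, fun n k hk h2 => ⟨lower n k hk, ?_⟩⟩
  obtain ⟨F, hF, hc⟩ := h n k hk h2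
  have h1 : minMaximal n k ≤ F.card := Nat.sInf_le ⟨F, hF, rfl⟩
  have h3 : (minMaximal n k : ℝ) ≤ (F.card : ℝ) := by exact_mod_cast h1
  exact h3.trans hc

/-- The simple bound `i(n,k) ≥ k`. -/
theorem le_minMaximal (n k : ℕ) (hk : 1 ≤ k) (h : 2 * k ≤ n) : k ≤ minMaximal n k := by
  classical
  obtain ⟨F, hF, hc⟩ := attained n k
  rw [← hc]
  by_contra hcon
  push Not at hcon
  have hne : ∀ A ∈ F, A.Nonempty := fun A hA => by
    have := hF.prop.2 A hA A hA
    rwa [Finset.inter_self] at this
  have hne' : ∀ A : F, ∃ x : Fin n, x ∈ (A : Finset (Fin n)) := fun A => hne A.1 A.2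
  choose g hg using hne'
  set T : Finset (Fin n) := F.attach.image g with hT
  have hTc : T.card ≤ F.card := by
    have := Finset.card_image_le (s := F.attach) (f := g)
    rwa [Finset.card_attach] at this
  obtain ⟨T', hTT', hT'⟩ := Finset.exists_superset_card_eq (s := T) (n := k - 1) (by omega)
    (by rw [Fintype.card_fin]; omega)
  have hmem : ∀ x ∈ T'ᶜ, insert x T' ∈ F := by
    intro x hx
    rw [Finset.mem_compl] at hx
    have hcard : (insert x T').card = k := by
      rw [Finset.card_insert_of_notMem hx, hT']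
      omega
    have hmeet : ∀ A ∈ F, (insert x T' ∩ A).Nonempty := by
      intro A hA
      refine ⟨g ⟨A, hA⟩, Finset.mem_inter.mpr ⟨Finset.mem_insert_of_mem (hTT' ?_), hg ⟨A, hA⟩⟩⟩
      exact Finset.mem_image_of_mem g (Finset.mem_attach F ⟨A, hA⟩)
    have hint : IsInt n k (insert (insert x T') F) := by
      refine ⟨fun A hA => ?_, fun A hA B hB => ?_⟩
      · rcases Finset.mem_insert.mp hA with h1 | h1
        · rw [h1]
          exact hcard
        · exact hF.prop.1 A h1
      · rcases Finset.mem_insert.mp hA with h1 | h1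
        · rcases Finset.mem_insert.mp hB with h2 | h2
          · rw [h1, h2, Finset.inter_self, ← Finset.card_pos, hcard]
            exact hk
          · rw [h1]
            exact hmeet B h2
        · rcases Finset.mem_insert.mp hB with h2 | h2
          · rw [h2, Finset.inter_comm]
            exact hmeet A h1
          · exact hF.prop.2 A h1 B h2
    exact hF.le_of_ge hint (Finset.subset_insert _ _) (Finset.mem_insert_self _ _)
  have hinj : Set.InjOn (fun x => insert x T') (T'ᶜ : Finset (Fin n)) := by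
    intro x hx y hy hxy
    rw [Finset.mem_coe, Finset.mem_compl] at hx hy
    have h1 : x ∈ insert y T' := by
      have : insert x T' = insert y T' := hxy
      rw [← this]
      exact Finset.mem_insert_self _ _
    rcases Finset.mem_insert.mp h1 with h2 | h2
    · exact h2
    · exact absurd h2 hx
  have h1 : (T'ᶜ : Finset (Fin n)).card ≤ F.card :=
    Finset.card_le_card_of_injOn (fun x => insert x T') hmem hinj
  rw [Finset.card_compl, Fintype.card_fin, hT'] at h1
  omega

/-- Consequence of `result`: `log i(n,k)` has the order of magnitude of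
`log k + log (C(n,k) / C(n-k,k))` for all `k ≥ 2` and `n ≥ 2 k`. -/
theorem log_order : ∃ C : ℝ, ∀ n k : ℕ, 2 ≤ k → 2 * k ≤ n →
    1 / 3 * (Real.log k + Real.log ((n.choose k : ℝ) / ((n - k).choose k : ℝ))) ≤
      Real.log (minMaximal n k) ∧
    Real.log (minMaximal n k) ≤
      C * (Real.log k + Real.log ((n.choose k : ℝ) / ((n - k).choose k : ℝ))) := by
  obtain ⟨C, h⟩ := result
  refine ⟨max C 1, fun n k hk h2 => ?_⟩
  obtain ⟨hlo, hup⟩ := h n k (by omega) h2
  have hk0 : (2 : ℝ) ≤ k := by exact_mod_cast hk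
  have hN : (0 : ℝ) < n.choose k := by exact_mod_cast Nat.choose_pos (by omega)
  have hD : (1 : ℝ) ≤ (n - k).choose k := by
    exact_mod_cast Nat.choose_pos (by omega : k ≤ n - k)
  have hkm : (k : ℝ) ≤ minMaximal n k := by
    exact_mod_cast le_minMaximal n k (by omega) h2
  have hlk : Real.log 2 ≤ Real.log k := Real.log_le_log (by norm_num) hk0
  have hl2 : 0 < Real.log 2 := Real.log_pos (by norm_num)
  have hlm : Real.log k ≤ Real.log (minMaximal n k) := Real.log_le_log (by linarith) hkm
  set R : ℝ := (n.choose k : ℝ) / ((n - k).choose k : ℝ) with hR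
  have hR1 : 1 ≤ R := by
    rw [hR, one_le_div (by linarith)]
    exact_mod_cast Nat.choose_le_choose k (by omega)
  have hlR : 0 ≤ Real.log R := Real.log_nonneg hR1
  constructor
  · have h3 : R / 2 ≤ (n.choose k : ℝ) / (1 + ((n - k).choose k : ℝ)) := by
      rw [hR, div_div]
      exact div_le_div_of_nonneg_left hN.le (by linarith) (by linarith)
    have h4 := Real.log_le_log (by linarith) (h3.trans hlo)
    rw [Real.log_div (by linarith) (by norm_num)] at h4
    linarith
  · have h3 := Real.log_le_log (by linarith) hup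
    rw [Real.log_mul (by positivity) (by linarith), Real.log_pow] at h3
    have h4 : (C : ℝ) * Real.log k ≤ max (C : ℝ) 1 * Real.log k :=
      mul_le_mul_of_nonneg_right (le_max_left _ _) (by linarith)
    have h5 : 1 * Real.log R ≤ max (C : ℝ) 1 * Real.log R :=
      mul_le_mul_of_nonneg_right (le_max_right _ _) hlR
    rw [mul_add]
    linarith

/-- Consequence of `result`: for every fixed integer `c ≥ 2` the `k`-th root of `i(ck,k)`
converges to `c^c (c-2)^(c-2) / (c-1)^(2(c-1))`. -/
theorem kth_root_limit (c : ℕ) (hc : 2 ≤ c) :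
    Tendsto (fun k : ℕ => (minMaximal (c * k) k : ℝ) ^ (1 / (k : ℝ))) atTop
      (𝓝 ((c : ℝ) ^ c * ((c : ℝ) - 2) ^ (c - 2) / ((c : ℝ) - 1) ^ (2 * (c - 1)))) := by
  obtain ⟨C, h⟩ := result
  have hcR : (2 : ℝ) ≤ c := by exact_mod_cast hc
  refine Pool.Agent.H70.KG.root_lim c hc _ ?_ ?_
  · filter_upwards [eventually_ge_atTop 1] with k hk
    exact (h (c * k) k hk (Nat.mul_le_mul_right _ hc)).1
  · filter_upwards [eventually_ge_atTop 2, eventually_ge_atTop (C ^ 2)] with k hk hk2
    have hkR : (2 : ℝ) ≤ k := by exact_mod_cast hk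
    refine ((h (c * k) k (by omega) (Nat.mul_le_mul_right _ hc)).2).trans ?_
    rw [mul_comm]
    refine mul_le_mul_of_nonneg_left ?_ (by positivity)
    have hk0 : (0 : ℝ) < k := by linarith
    have h1 : (k : ℝ) ^ C = Real.exp (C * Real.log k) := by
      rw [Real.exp_nat_mul, Real.exp_log hk0]
    rw [h1]
    refine Real.exp_le_exp.mpr ?_
    push_cast
    have h4 : (4 : ℝ) ≤ c * k := by nlinarith
    have hl1 : 1 ≤ Real.log (c * k) := by
      rw [Real.le_log_iff_exp_le (by linarith)]
      have := Real.exp_one_lt_d9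
      linarith
    have hlk : Real.log k ≤ Real.log (c * k) := Real.log_le_log hk0 (by nlinarith)
    have hl2 : Real.log (c * k) ≤ Real.log (c * k) ^ 2 := by nlinarith
    have hCk : (C : ℝ) ≤ Real.sqrt k := by
      rw [Real.le_sqrt (Nat.cast_nonneg C) hk0.le]
      exact_mod_cast hk2
    have hsq : (c : ℝ) * k / Real.sqrt k = c * Real.sqrt k := by
      rw [mul_div_assoc, Real.div_sqrt]
    rw [hsq]
    have hlk0 : 0 ≤ Real.log k := Real.log_nonneg (by linarith)
    have h5 : (C : ℝ) * Real.log k ≤ Real.sqrt k * Real.log (c * k) ^ 2 :=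
      mul_le_mul hCk (hlk.trans hl2) hlk0 (Real.sqrt_nonneg _)
    have h6 : 0 ≤ Real.sqrt k * Real.log (c * k) ^ 2 := by positivity
    have h7 : 1 * (Real.sqrt k * Real.log (c * k) ^ 2) ≤
        (30 * c) * (Real.sqrt k * Real.log (c * k) ^ 2) :=
      mul_le_mul_of_nonneg_right (by linarith) h6
    calc (C : ℝ) * Real.log k ≤ (30 * c) * (Real.sqrt k * Real.log (c * k) ^ 2) := by linarith
      _ = 30 * (c * Real.sqrt k * Real.log (c * k) ^ 2) := by ring

end Pool.Agent.Results.MP_3036ab_co.PolynomialFactor
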